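import Mathlib
import Pool.Agent.T6.H25.MPGraph

set_option autoImplicit false

/-!
# Hawkes graph and `N`-critical graph of a product of pairwise mutually permutable subgroups

For every finite group `G = G_1 ⋯ G_n` which is the product of pairwise mutually permutable
subgroups, both inclusions (1) and (2) of Q1 of `MP_11c1cd_al` hold.
-/

namespace Pool.Agent.Results.MP_11c1cd_al.ArithmeticGraphs

open Subgroup
open scoped Pointwise
open Pool.Agent.T6.H25.MPG
open Pool.Agent.T6.H25.PM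

universe u

/-- A directed graph (loops allowed) with vertices in `ℕ`. -/
structure Graph where
  /-- vertex set -/
  V : Set ℕ
  /-- edge set -/
  E : Set (ℕ × ℕ)

/-- Union of graphs, separately on vertices and on edges. -/
instance : Union Graph := ⟨fun Γ Δ => ⟨Γ.V ∪ Δ.V, Γ.E ∪ Δ.E⟩⟩

/-- Inclusion of graphs, separately on vertices and on edges. -/
instance : HasSubset Graph := ⟨fun Γ Δ => Γ.V ⊆ Δ.V ∧ Γ.E ⊆ Δ.E⟩

/-- Union of a family of graphs. -/
def iUnion {ι : Type} (Γ : ι → Graph) : Graph := ⟨⋃ i, (Γ i).V, ⋃ i, (Γ i).E⟩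

/-- The set of primes dividing `n`. -/
def primeSet (n : ℕ) : Set ℕ := {p | p.Prime ∧ p ∣ n}

/-- `X` is `p`-nilpotent: it has a normal `p'`-subgroup whose index is a power of `p`. -/
def PNilpotent (p : ℕ) (X : Type u) [Group X] : Prop :=
  ∃ K : Subgroup X, K.Normal ∧ ¬ p ∣ Nat.card K ∧ ∃ k : ℕ, K.index = p ^ k

/-- `O_{p',p}(X)`: the join of all normal `p`-nilpotent subgroups of `X`
(see `isGreatest_opPrimeP`: it is the largest normal `p`-nilpotent subgroup). -/
def opPrimeP (p : ℕ) (X : Type u) [Group X] : Subgroup X :=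
  sSup {N : Subgroup X | N.Normal ∧ PNilpotent p N}

/-- The Hawkes graph: `(p, q)` is an edge iff `p ∈ π(X)` and `q ∈ π(X / O_{p',p}(X))`. -/
def hawkes (X : Type u) [Group X] : Graph :=
  ⟨primeSet (Nat.card X),
    {e | e.1 ∈ primeSet (Nat.card X) ∧ e.2 ∈ primeSet (opPrimeP e.1 X).index}⟩

/-- Schmidt groups: non-nilpotent groups with all proper subgroups nilpotent. -/
def Schmidt (S : Type u) [Group S] : Prop :=
  ¬ Group.IsNilpotent S ∧ ∀ T : Subgroup S, T ≠ ⊤ → Group.IsNilpotent T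

/-- Schmidt `(p, q)`-groups. -/
def SchmidtPQ (p q : ℕ) (S : Type u) [Group S] : Prop :=
  Schmidt S ∧ primeSet (Nat.card S) = {p, q} ∧ ∃ P : Sylow p S, (P : Subgroup S).Normal

/-- The `N`-critical graph: `(p, q)` is an edge iff some subgroup is a Schmidt `(p, q)`-group. -/
def nCritical (X : Type u) [Group X] : Graph :=
  ⟨primeSet (Nat.card X), {e | ∃ S : Subgroup X, SchmidtPQ e.1 e.2 S}⟩

/-- The edges of `Γ(A, B)`. -/
def crossEdges {G : Type u} [Group G] (A B : Subgroup G) : Set (ℕ × ℕ) :=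
  {e | (e.1 ∈ primeSet (Nat.card A) ∧ e.2 ∈ primeSet (Nat.card B) ∩ primeSet (e.1 - 1)) ∨
    (e.1 ∈ primeSet (Nat.card B) ∧ e.2 ∈ primeSet (Nat.card A) ∩ primeSet (e.1 - 1))}

/-- The graph `Γ(A, B)`; its vertices are the primes occurring in edges. -/
def cross {G : Type u} [Group G] (A B : Subgroup G) : Graph :=
  ⟨{r | ∃ e ∈ crossEdges A B, r = e.1 ∨ r = e.2}, crossEdges A B⟩

/-- All loops `(p, p)`, `p ∈ π(G)`. -/
def loops (G : Type u) [Group G] : Graph :=
  ⟨primeSet (Nat.card G), {e | e.1 ∈ primeSet (Nat.card G) ∧ e.2 = e.1}⟩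

/-- `A` and `B` are mutually permutable. -/
def MutuallyPermutable {G : Type u} [Group G] (A B : Subgroup G) : Prop :=
  (∀ X ≤ B, (A : Set G) * (X : Set G) = (X : Set G) * (A : Set G)) ∧
    ∀ Y ≤ A, (Y : Set G) * (B : Set G) = (B : Set G) * (Y : Set G)

/-- `G` is the product of the pairwise mutually permutable subgroups `H 0, …, H (n - 1)`. -/
def IsMPProduct {G : Type u} [Group G] {n : ℕ} (H : Fin n → Subgroup G) : Prop :=
  (∀ g : G, ∃ x : Fin n → G, (∀ i, x i ∈ H i) ∧ (List.ofFn x).prod = g) ∧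
    ∀ i j, i ≠ j → MutuallyPermutable (H i) (H j)

/-- `O_{p',p}(X)` is the largest normal `p`-nilpotent subgroup. -/
theorem isGreatest_opPrimeP {p : ℕ} (hp : p.Prime) (X : Type u) [Group X] [Finite X] :
    IsGreatest {N : Subgroup X | N.Normal ∧ PNilpotent p N} (opPrimeP p X) :=
  opp_isGreatest hp X

lemma mp_of {G : Type u} [Group G] {A B : Subgroup G} (h : MutuallyPermutable A B) : MP A B :=
  ⟨fun X hX => pm_iff.2 (h.2 X hX), fun X hX => pm_iff.2 (h.1 X hX)⟩

lemma top_of {G : Type u} [Group G] {n : ℕ} {H : Fin n → Subgroup G}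
    (h : ∀ g : G, ∃ x : Fin n → G, (∀ i, x i ∈ H i) ∧ (List.ofFn x).prod = g) :
    Finset.univ.sup H = ⊤ := by
  rw [eq_top_iff]
  intro g _
  obtain ⟨x, hx, rfl⟩ := h g
  apply list_prod_mem
  intro y hy
  rw [List.mem_ofFn] at hy
  obtain ⟨i, rfl⟩ := hy
  exact (Finset.le_sup (f := H) (Finset.mem_univ i)) (hx i)

lemma exists_dvd {G : Type u} [Group G] [Finite G] {n : ℕ} {H : Fin n → Subgroup G}
    (hmp : ∀ i j, MP (H i) (H j)) (htop : Finset.univ.sup H = ⊤) {p : ℕ}
    (hp : p ∈ primeSet (Nat.card G)) : ∃ i, p ∈ primeSet (Nat.card (H i)) := by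
  by_contra hne
  push Not at hne
  have hne' : ∀ i, ¬ p ∣ Nat.card (H i) := fun i h => hne i ⟨hp.1, h⟩
  obtain ⟨P, hPp, _, hPi, hPsup, _⟩ := exists_presylow hp.1 hmp Finset.univ
  have hP : P = ⊥ := by
    rw [eq_bot_iff]
    refine hPsup.trans (Finset.sup_le fun i _ x hx => ?_)
    exact mem_bot.2 (eq_one_of_not_dvd hp.1 (hne' i) hx.2 (pelem_of hPp hx.1))
  rw [htop, hP, relIndex_bot_left] at hPi
  apply hPi
  rw [card_top]; exact hp.2

lemma mp_all {G : Type u} [Group G] {n : ℕ} {H : Fin n → Subgroup G}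
    (h : ∀ i j, i ≠ j → MutuallyPermutable (H i) (H j)) (i j : Fin n) : MP (H i) (H j) := by
  by_cases hij : i = j
  · rw [hij]; exact MP.refl _
  · exact mp_of (h i j hij)

lemma kq_card {G : Type u} [Group G] [Finite G] {q : ℕ} (hq : q.Prime) (A : Subgroup G) :
    Nat.card (Kq q A) = Nat.card (Kq q (⊤ : Subgroup A)) := by
  have h1 := Kq_map A.subtype hq ⊤
  rw [← MonoidHom.range_eq_map, range_subtype] at h1
  rw [← h1]
  exact (Nat.card_congr
    ((Kq q (⊤ : Subgroup A)).equivMapOfInjective A.subtype A.subtype_injective).toEquiv).symm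

/-- **Q1 of `MP_11c1cd_al`**: for every finite group `G` which is the product of pairwise mutually
permutable subgroups `G_1, …, G_n`, both (1) and (2) hold. -/
theorem result (G : Type u) [Group G] [Finite G] (n : ℕ) (H : Fin n → Subgroup G)
    (h : IsMPProduct H) :
    hawkes G ⊆ (iUnion fun i : Fin n => hawkes (H i)) ∪
        (iUnion fun e : {e : Fin n × Fin n // e.1 ≠ e.2} => cross (H e.1.1) (H e.1.2)) ∪ loops G ∧
      nCritical G ⊆ (iUnion fun i : Fin n => nCritical (H i)) ∪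
        (iUnion fun e : {e : Fin n × Fin n // e.1 ≠ e.2} => cross (H e.1.1) (H e.1.2)) := by
  obtain ⟨hprod, hmp0⟩ := h
  have hmp := mp_all hmp0
  have htop := top_of hprod
  -- the cross condition
  have hst : ∀ {p q : ℕ}, p.Prime → q.Prime → (p, q) ∉ (iUnion fun e : {e : Fin n × Fin n //
      e.1 ≠ e.2} => cross (H e.1.1) (H e.1.2)).E →
      ∀ i j, i ≠ j → q ∣ p - 1 → p ∣ Nat.card (H i) → ¬ q ∣ Nat.card (H j) := by
    intro p q hp hq hne i j hij h1 h2 h3
    apply hne
    refine Set.mem_iUnion.2 ⟨⟨(i, j), hij⟩, Or.inl ⟨⟨hp, h2⟩, ⟨hq, h3⟩, ⟨hq, h1⟩⟩⟩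
  refine ⟨⟨fun p hp => Or.inr hp, ?_⟩, ⟨?_, ?_⟩⟩
  · rintro ⟨p, q⟩ ⟨hpG, hqo⟩
    by_contra hne
    have hne1 : (p, q) ∉ (iUnion fun i : Fin n => hawkes (H i)).E := fun h => hne (Or.inl (Or.inl h))
    have hne2 : (p, q) ∉ (iUnion fun e : {e : Fin n × Fin n // e.1 ≠ e.2} =>
      cross (H e.1.1) (H e.1.2)).E := fun h => hne (Or.inl (Or.inr h))
    have hpq : p ≠ q := fun h => hne (Or.inr ⟨hpG, h.symm⟩)
    have hp := hpG.1
    have hq := hqo.1
    have hK : ∀ i, ¬ p ∣ Nat.card (Kq q (H i)) := by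
      intro i
      rw [kq_card hq]
      by_cases hpi : p ∣ Nat.card (H i)
      · refine hk_of_opp hp hq hpq fun h1 => hne1 ?_
        exact Set.mem_iUnion.2 ⟨i, ⟨hp, hpi⟩, ⟨hq, h1⟩⟩
      · exact fun h1 => hpi (h1.trans (card_subgroup_dvd_card _))
    have h1 := hk_thm hp hq hpq _ G (Fin n) H rfl hmp htop hK (hst hp hq hne2)
    exact opp_of_hk hp hq h1 hqo.2
  · intro p hp
    obtain ⟨i, hi⟩ := exists_dvd hmp htop hp
    exact Or.inl (Set.mem_iUnion.2 ⟨i, hi⟩)
  · rintro ⟨p, q⟩ ⟨S, hS⟩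
    by_contra hne
    have hne1 : (p, q) ∉ (iUnion fun i : Fin n => nCritical (H i)).E := fun h => hne (Or.inl h)
    have hne2 : (p, q) ∉ (iUnion fun e : {e : Fin n × Fin n // e.1 ≠ e.2} =>
      cross (H e.1.1) (H e.1.2)).E := fun h => hne (Or.inr h)
    have hp : p.Prime := by
      have : p ∈ primeSet (Nat.card S) := by rw [hS.2.1]; exact Or.inl rfl
      exact this.1
    have hq : q.Prime := by
      have : q ∈ primeSet (Nat.card S) := by rw [hS.2.1]; exact Or.inr rfl
      exact this.1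
    have hpq : p ≠ q := by
      rintro rfl
      apply hS.1.1
      have : Fact p.Prime := ⟨hp⟩
      have h1 : Nat.card S = p ^ (Nat.card S).primeFactorsList.length := by
        apply Nat.eq_prime_pow_of_unique_prime_dvd Nat.card_pos.ne'
        intro d hd hdS
        have h2 : d ∈ primeSet (Nat.card S) := ⟨hd, hdS⟩
        rw [hS.2.1] at h2
        rcases h2 with h2 | h2
        · exact h2
        · exact h2
      exact (IsPGroup.of_card h1).isNilpotent
    have hNN : ∀ i, NN p q (H i) := by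
      intro i
      have h1 : NN p q (⊤ : Subgroup (H i)) := by
        by_contra h2
        obtain ⟨S', hS'⟩ := exists_schmidt hp hq hpq h2
        exact hne1 (Set.mem_iUnion.2 ⟨i, S', hS'⟩)
      have h2 := h1.map (H i).subtype hp hq
      rwa [← MonoidHom.range_eq_map, range_subtype] at h2
    have h1 := nc_thm hp hq hpq _ G (Fin n) H rfl hmp htop hNN (hst hp hq hne2)
    exact no_schmidt hp hq h1 S hS

end Pool.Agent.Results.MP_11c1cd_al.ArithmeticGraphs
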